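import Pool.Agent.Helper70.MM.Goals

/-!
# Project MM, packet UD: differentiation of the potentials under the integral sign
-/

open MeasureTheory Set Metric
open scoped ENNReal RealInnerProductSpace Topology
open Pool.Agent.Results.MP_91ee6f_gt
open Pool.Agent.Helper70.MM

namespace Pool.Agent.Helper77.MM

/-- `s om (j+1) s` is bounded away from `0`. -/
theorem om_bound1 (j : ℕ) {a : ℝ} (ha : 0 < a) :
    ∃ C : ℝ, 0 ≤ C ∧ ∀ s, a ≤ s → s * om (j + 1) s ≤ C := by
  cases j with
  | zero =>
    refine ⟨1, zero_le_one, fun s hs => ?_⟩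
    have hs0 : 0 < s := lt_of_lt_of_le ha hs
    rw [zero_add, om_one]
    have h1 : s * (Real.exp (-s) / s) = Real.exp (-s) := by field_simp
    rw [h1]
    exact Real.exp_le_one_iff.2 (by linarith)
  | succ k =>
    refine ⟨(om k a + (2 * k + 1) * om (k + 1) a) / a, ?_, fun s hs => ?_⟩
    · have h1 := om_pos k ha
      have h2 := om_pos (k + 1) ha
      positivity
    · have hs0 : 0 < s := lt_of_lt_of_le ha hs
      have h1 : s * om (k + 2) s = (om k s + (2 * k + 1) * om (k + 1) s) / s := by
        rw [← om_rel k hs0]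
        field_simp
      change s * om (k + 2) s ≤ _
      rw [h1]
      have h2 := om_le k ha hs
      have h3 := om_le (k + 1) ha hs
      have h4 := om_pos k hs0
      have h5 := om_pos (k + 1) hs0
      have h6 : om k s + (2 * (k : ℝ) + 1) * om (k + 1) s ≤
          om k a + (2 * (k : ℝ) + 1) * om (k + 1) a := by
        have : (0 : ℝ) ≤ 2 * (k : ℝ) + 1 := by positivity
        nlinarith [mul_le_mul_of_nonneg_left h3 this]
      have h7 : 0 ≤ om k s + (2 * (k : ℝ) + 1) * om (k + 1) s := by positivity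
      exact div_le_div₀ (le_trans h7 h6) h6 ha hs

/-- `s ^ 2 om (j+2) s` is bounded away from `0`. -/
theorem om_bound2 (j : ℕ) {a : ℝ} (ha : 0 < a) :
    ∃ C : ℝ, 0 ≤ C ∧ ∀ s, a ≤ s → s ^ 2 * om (j + 2) s ≤ C := by
  refine ⟨om j a + (2 * j + 1) * om (j + 1) a, ?_, fun s hs => ?_⟩
  · have h1 := om_pos j ha
    have h2 := om_pos (j + 1) ha
    positivity
  · have hs0 : 0 < s := lt_of_lt_of_le ha hs
    rw [om_rel j hs0]
    have h2 := om_le j ha hs
    have h3 := om_le (j + 1) ha hs
    have : (0 : ℝ) ≤ 2 * (j : ℝ) + 1 := by positivity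
    nlinarith [mul_le_mul_of_nonneg_left h3 this]

variable {n : ℕ}

theorem meas_om (j : ℕ) (x : En n) : Measurable fun y : En n => om j (dist x y) :=
  (om_measurable j).comp (measurable_const.dist measurable_id)

theorem meas_inner (x e : En n) : Measurable fun y : En n => inner ℝ (x - y) e :=
  Continuous.measurable (by fun_prop)

theorem abs_inner_le {e : En n} (he : ‖e‖ = 1) (x y : En n) :
    |inner ℝ (x - y) e| ≤ dist x y := by
  have := abs_real_inner_le_norm (x - y) e
  rwa [he, mul_one, ← dist_eq_norm] at this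

theorem dist_ge {e x y : En n} {δ t : ℝ} (he : ‖e‖ = 1) (hxy : δ ≤ dist x y)
    (ht : |t| ≤ δ / 2) : δ / 2 ≤ dist (x + t • e) y := by
  have h1 := dist_triangle x (x + t • e) y
  have h2 : dist x (x + t • e) = |t| := by
    rw [dist_eq_norm, sub_add_cancel_left, norm_neg, norm_smul, he, mul_one, Real.norm_eq_abs]
  linarith

/-- The derivative of the distance. -/
theorem hasDerivAt_dist {x e y : En n} {t : ℝ} (h : 0 < dist (x + t • e) y) :
    HasDerivAt (fun t : ℝ => dist (x + t • e) y)
      (inner ℝ (x + t • e - y) e / dist (x + t • e) y) t := by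
  have h1 : HasDerivAt (fun t : ℝ => x + t • e - y) e t := by
    have := (((hasDerivAt_id t).smul_const e).const_add x).sub_const y
    simpa using this
  have h2 := h1.norm_sq
  have h3 : ‖x + t • e - y‖ ^ 2 ≠ 0 := by
    rw [← dist_eq_norm]
    positivity
  have h4 := h2.sqrt h3
  have h5 : (fun t : ℝ => Real.sqrt (‖x + t • e - y‖ ^ 2)) = fun t : ℝ => dist (x + t • e) y := by
    funext t
    rw [Real.sqrt_sq (norm_nonneg _), dist_eq_norm]
  rw [h5] at h4
  refine h4.congr_deriv ?_
  rw [Real.sqrt_sq (norm_nonneg _), ← dist_eq_norm, mul_div_mul_left _ _ two_ne_zero]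

theorem hasDerivAt_om {x e y : En n} {t : ℝ} (j : ℕ) (h : 0 < dist (x + t • e) y) :
    HasDerivAt (fun t : ℝ => om j (dist (x + t • e) y))
      (-(om (j + 1) (dist (x + t • e) y) * inner ℝ (x + t • e - y) e)) t := by
  have h1 := (om_hasDerivAt j h).comp t (hasDerivAt_dist h)
  refine h1.congr_deriv ?_
  field_simp

theorem hasDerivAt_inner {x e y : En n} (he : ‖e‖ = 1) (t : ℝ) :
    HasDerivAt (fun t : ℝ => inner ℝ (x + t • e - y) e) 1 t := by
  have h1 : (fun t : ℝ => inner ℝ (x + t • e - y) e) =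
      fun t : ℝ => inner ℝ (x - y) e + t := by
    funext t
    have : x + t • e - y = (x - y) + t • e := by abel
    rw [this, inner_add_left, inner_smul_left, real_inner_self_eq_norm_sq, he]
    simp
  rw [h1]
  simpa using (hasDerivAt_id t).const_add (inner ℝ (x - y) e)

theorem hasDerivAt_om_inner {x e y : En n} {t : ℝ} (j : ℕ) (he : ‖e‖ = 1)
    (h : 0 < dist (x + t • e) y) :
    HasDerivAt (fun t : ℝ => om (j + 1) (dist (x + t • e) y) * inner ℝ (x + t • e - y) e)
      (-(om (j + 2) (dist (x + t • e) y) * inner ℝ (x + t • e - y) e ^ 2 -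
        om (j + 1) (dist (x + t • e) y))) t := by
  have h1 := (hasDerivAt_om (j + 1) h).mul (hasDerivAt_inner (x := x) (y := y) he t)
  refine h1.congr_deriv ?_
  ring

theorem abs_term1 {j : ℕ} {a C : ℝ} (ha : 0 < a) (hC : ∀ s, a ≤ s → s * om (j + 1) s ≤ C)
    {e : En n} (he : ‖e‖ = 1) {x y : En n} (h : a ≤ dist x y) :
    |om (j + 1) (dist x y) * inner ℝ (x - y) e| ≤ C := by
  have h1 := om_pos (j + 1) (lt_of_lt_of_le ha h)
  rw [abs_mul, abs_of_pos h1]
  calc om (j + 1) (dist x y) * |inner ℝ (x - y) e|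
      ≤ om (j + 1) (dist x y) * dist x y :=
        mul_le_mul_of_nonneg_left (abs_inner_le he x y) h1.le
    _ = dist x y * om (j + 1) (dist x y) := mul_comm _ _
    _ ≤ C := hC _ h

theorem abs_term2 {j : ℕ} {a C : ℝ} (ha : 0 < a) (hC : ∀ s, a ≤ s → s ^ 2 * om (j + 2) s ≤ C)
    {e : En n} (he : ‖e‖ = 1) {x y : En n} (h : a ≤ dist x y) :
    |om (j + 2) (dist x y) * inner ℝ (x - y) e ^ 2| ≤ C := by
  have h1 := om_pos (j + 2) (lt_of_lt_of_le ha h)
  rw [abs_mul, abs_of_pos h1, abs_of_nonneg (sq_nonneg _)]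
  calc om (j + 2) (dist x y) * inner ℝ (x - y) e ^ 2
      ≤ om (j + 2) (dist x y) * dist x y ^ 2 := by
        refine mul_le_mul_of_nonneg_left ?_ h1.le
        rw [← sq_abs (inner ℝ (x - y) e)]
        exact pow_le_pow_left₀ (abs_nonneg _) (abs_inner_le he x y) 2
    _ = dist x y ^ 2 * om (j + 2) (dist x y) := mul_comm _ _
    _ ≤ C := hC _ h

theorem int_om (j : ℕ) (ν : Measure (En n)) [IsFiniteMeasure ν] {x : En n} {a : ℝ} (ha : 0 < a)
    (h : ∀ᵐ y ∂ν, a ≤ dist x y) : Integrable (fun y => om j (dist x y)) ν := by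
  refine Integrable.of_bound (meas_om j x).aestronglyMeasurable (om j a) ?_
  filter_upwards [h] with y hy
  rw [Real.norm_eq_abs, abs_of_pos (om_pos j (lt_of_lt_of_le ha hy))]
  exact om_le j ha hy

theorem ud : UD := by
  intro n j ν hν x e δ hδ he h
  have hδ2 : 0 < δ / 2 := by positivity
  obtain ⟨C1, hC1, hb1⟩ := om_bound1 j hδ2
  obtain ⟨C2, hC2, hb2⟩ := om_bound2 j hδ2
  have hU : {t : ℝ | |t| < δ / 2} = ball 0 (δ / 2) := by
    ext t
    simp
  have hopen : IsOpen {t : ℝ | |t| < δ / 2} := by rw [hU]; exact isOpen_ball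
  have h2 : ∀ t : ℝ, |t| ≤ δ / 2 → ∀ᵐ y ∂ν, δ / 2 ≤ dist (x + t • e) y := by
    intro t ht
    filter_upwards [h] with y hy
    exact dist_ge he hy ht
  have i3 : Integrable (fun y => om (j + 2) (dist x y) * (inner ℝ (x - y) e) ^ 2) ν := by
    refine Integrable.of_bound
      ((meas_om (j + 2) x).mul ((meas_inner x e).pow_const 2)).aestronglyMeasurable C2 ?_
    filter_upwards [h] with y hy
    exact abs_term2 hδ2 hb2 he (by linarith)
  refine ⟨int_om j ν hδ h, int_om (j + 1) ν hδ h, i3, ?_, ?_⟩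
  · intro t₀ ht₀
    have key := hasDerivAt_integral_of_dominated_loc_of_deriv_le (μ := ν)
      (F := fun (t : ℝ) (y : En n) => om j (dist (x + t • e) y))
      (F' := fun (t : ℝ) (y : En n) =>
        -(om (j + 1) (dist (x + t • e) y) * inner ℝ (x + t • e - y) e))
      (bound := fun _ => C1) (x₀ := t₀) (s := {t : ℝ | |t| < δ / 2})
      (hopen.mem_nhds ht₀)
      (Filter.Eventually.of_forall fun t => (meas_om j (x + t • e)).aestronglyMeasurable)
      (int_om j ν hδ2 (h2 t₀ (le_of_lt ht₀)))
      ((meas_om (j + 1) (x + t₀ • e)).mul (meas_inner (x + t₀ • e) e)).neg.aestronglyMeasurable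
      (by
        filter_upwards [h] with y hy t ht
        rw [norm_neg]
        exact abs_term1 hδ2 hb1 he (dist_ge he hy (le_of_lt ht)))
      (integrable_const _)
      (by
        filter_upwards [h] with y hy t ht
        exact hasDerivAt_om j (lt_of_lt_of_le hδ2 (dist_ge he hy (le_of_lt ht))))
    rw [← integral_neg]
    exact key.2
  · have h0 : (0 : ℝ) ∈ {t : ℝ | |t| < δ / 2} := by
      simpa using hδ2
    have key := hasDerivAt_integral_of_dominated_loc_of_deriv_le (μ := ν)
      (F := fun (t : ℝ) (y : En n) =>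
        om (j + 1) (dist (x + t • e) y) * inner ℝ (x + t • e - y) e)
      (F' := fun (t : ℝ) (y : En n) =>
        -(om (j + 2) (dist (x + t • e) y) * inner ℝ (x + t • e - y) e ^ 2 -
          om (j + 1) (dist (x + t • e) y)))
      (bound := fun _ => C2 + om (j + 1) (δ / 2)) (x₀ := 0) (s := {t : ℝ | |t| < δ / 2})
      (hopen.mem_nhds h0)
      (Filter.Eventually.of_forall fun t =>
        ((meas_om (j + 1) (x + t • e)).mul (meas_inner (x + t • e) e)).aestronglyMeasurable)
      (by
        refine Integrable.of_bound ((meas_om (j + 1) (x + (0 : ℝ) • e)).mul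
          (meas_inner (x + (0 : ℝ) • e) e)).aestronglyMeasurable C1 ?_
        filter_upwards [h] with y hy
        exact abs_term1 hδ2 hb1 he (dist_ge he hy (by simpa using hδ2.le)))
      ((((meas_om (j + 2) (x + (0 : ℝ) • e)).mul
        ((meas_inner (x + (0 : ℝ) • e) e).pow_const 2)).sub
        (meas_om (j + 1) (x + (0 : ℝ) • e))).neg.aestronglyMeasurable)
      (by
        filter_upwards [h] with y hy t ht
        have hd := dist_ge he hy (le_of_lt ht)
        rw [norm_neg]
        refine le_trans (norm_sub_le _ _) (add_le_add ?_ ?_)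
        · exact abs_term2 hδ2 hb2 he hd
        · rw [Real.norm_eq_abs, abs_of_pos (om_pos _ (lt_of_lt_of_le hδ2 hd))]
          exact om_le _ hδ2 hd)
      (integrable_const _)
      (by
        filter_upwards [h] with y hy t ht
        exact hasDerivAt_om_inner j he (lt_of_lt_of_le hδ2 (dist_ge he hy (le_of_lt ht))))
    have h3 := key.2.neg
    rw [← integral_neg] at h3
    simp only [neg_neg, zero_smul, add_zero] at h3
    exact h3

end Pool.Agent.Helper77.MM
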